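import Mathlib
import Pool.Agent.H330.GchTwo
import Pool.Agent.H330.OrdConv

/-!
# Converse of the stepping-up lemma under `GCH`
-/

set_option autoImplicit false

open Cardinal Ordinal Set

universe u

namespace Pool.Agent.Results.MP_2e9b9b_lc.BothConverses

/-- The partition relation of the problem file. The cardinal `κ` is the well-ordered set
`κ.ord.ToType` of the ordinals below it. For every colouring `c` of the `m`-element subsets of `κ`
with the colours `k < γ` there are a colour `k` and a set `H` of order type `η k` such that all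
`m`-element subsets of `H` have colour `k`. -/
def ArrowType (κ γ : Cardinal.{u}) (η : γ.ord.ToType → Ordinal.{u}) (m : ℕ) : Prop :=
  ∀ c : {s : Finset κ.ord.ToType // s.card = m} → γ.ord.ToType,
    ∃ (k : γ.ord.ToType) (H : Set κ.ord.ToType),
      Ordinal.type (fun a b : H => a < b) = η k ∧
      ∀ s : {s : Finset κ.ord.ToType // s.card = m},
        (∀ x ∈ s.1, x ∈ H) → c s = k

/-- The cardinal form of the relation: as `ArrowType`, with the order type of the homogeneous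
set replaced by its cardinality. -/
def ArrowCard (κ γ : Cardinal.{u}) (η : γ.ord.ToType → Cardinal.{u}) (m : ℕ) : Prop :=
  ∀ c : {s : Finset κ.ord.ToType // s.card = m} → γ.ord.ToType,
    ∃ (k : γ.ord.ToType) (H : Set κ.ord.ToType), #H = η k ∧
      ∀ s : {s : Finset κ.ord.ToType // s.card = m}, (∀ x ∈ s.1, x ∈ H) → c s = k

/-- The sequences left open for `n = 2`: `κ` is singular, its cofinality is the successor of a
singular cardinal `ρ`, exactly one entry equals `κ`, all other entries are below the cofinality of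
`ρ` and finite or singular, and `cf ρ ≤ γ < ρ`. -/
def Exceptional (κ γ : Cardinal.{u}) (η : γ.ord.ToType → Cardinal.{u}) : Prop :=
  ∃ (ρ : Cardinal.{u}) (k₀ : γ.ord.ToType), ℵ₀ ≤ ρ ∧ ρ.ord.cof < ρ ∧
    κ.ord.cof = Order.succ ρ ∧ κ.ord.cof < κ ∧ η k₀ = κ ∧
    (∀ k, k ≠ k₀ → η k < ρ.ord.cof ∧ ¬ (η k).IsRegular) ∧ ρ.ord.cof ≤ γ ∧ γ < ρ

/-- from a failing arrow to a colouring -/
lemma exists_NA {κ γ : Cardinal.{u}} (hγ : γ ≠ 0) {η : γ.ord.ToType → Cardinal.{u}} {r : ℕ}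
    (h : ¬ ArrowCard κ γ η r) : ∃ f : Finset κ.ord.ToType → γ.ord.ToType, H330.NA η r f := by
  classical
  unfold ArrowCard at h
  push Not at h
  obtain ⟨f, hf⟩ := h
  have hne : Nonempty γ.ord.ToType := by
    rw [← Cardinal.mk_ne_zero_iff, Cardinal.mk_ord_toType]; exact hγ
  refine ⟨fun s => if hs : s.card = r then f ⟨s, hs⟩ else Classical.choice hne, ?_⟩
  intro ν Y hY
  obtain ⟨s, hs1, hs2⟩ := hf ν Y hY
  refine ⟨s.1, s.2, fun x hx => hs1 x (Finset.mem_coe.mp hx), ?_⟩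
  simpa only [dif_pos s.2] using hs2

/-- from a colouring to a failing arrow -/
lemma not_arrow {κ γ : Cardinal.{u}} {η : γ.ord.ToType → Cardinal.{u}} {r : ℕ}
    (h : ∃ f : Finset κ.ord.ToType → γ.ord.ToType, H330.NA η r f) : ¬ ArrowCard κ γ η r := by
  rintro hA
  obtain ⟨f, hf⟩ := h
  obtain ⟨ν, H, hH, hhom⟩ := hA (fun s => f s.1)
  obtain ⟨s, h1, h2, h3⟩ := hf ν H hH
  exact h3 (hhom ⟨s, h1⟩ (fun x hx => h2 (Finset.mem_coe.mpr hx)))

/-- **Converse of the stepping-up lemma under `GCH`, cardinal form.** Let `κ` be infinite,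
`2 ≤ n`, `2 ≤ γ < κ` and `n < η k ≤ κ` for all `k < γ`. If `κ ↛ (η k; k < γ)^n` then
`2^κ ↛ (η k + 1; k < γ)^{n+1}` with cardinal sums `η k + 1` and homogeneous sets measured by
cardinality, unless `n = 2` and the sequence is `Exceptional`. -/
theorem card_form (gch : ∀ c : Cardinal.{u}, ℵ₀ ≤ c → 2 ^ c = Order.succ c)
    (κ γ : Cardinal.{u}) (hκ : ℵ₀ ≤ κ) (n : ℕ) (hn : 2 ≤ n) (hγ2 : 2 ≤ γ) (hγ : γ < κ)
    (η : γ.ord.ToType → Cardinal.{u}) (hη : ∀ k, (n : Cardinal.{u}) < η k ∧ η k ≤ κ)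
    (hex : n = 2 → ¬ Exceptional κ γ η) (h : ¬ ArrowCard κ γ η n) :
    ¬ ArrowCard (2 ^ κ) γ (fun k => η k + 1) (n + 1) := by
  have hγ0 : γ ≠ 0 := by
    rintro rfl
    exact absurd hγ2 (by simp)
  obtain ⟨f, hf⟩ := exists_NA hγ0 h
  apply not_arrow
  rcases (show n = 2 ∨ n = 3 ∨ 4 ≤ n by omega) with hn2 | hn3 | hn4
  · subst hn2
    refine H330.gch_two gch hκ (by rw [Cardinal.mk_ord_toType]; exact hγ) (fun ν => ⟨?_, (hη ν).2⟩)
      hf ?_
    · have h1 := Order.succ_le_of_lt (hη ν).1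
      have h2 : Order.succ ((2 : ℕ) : Cardinal.{u}) = ((3 : ℕ) : Cardinal.{u}) :=
        (Cardinal.nat_succ 2).symm
      rw [h2] at h1
      exact_mod_cast h1
    · rintro ⟨ρ, k₀, g1, g2, g3, g4, g5, g6, g7, g8⟩
      rw [Cardinal.mk_ord_toType] at g7 g8
      exact hex rfl ⟨ρ, k₀, g1, g2, g3, g4, g5, g6, g7, g8⟩
  · subst hn3
    refine H330.main_three hκ (fun ν => ⟨by exact_mod_cast (hη ν).1.le, (hη ν).2⟩) hf ?_
    intro c0 _ _ hc0 hreg hlt hle _
    exfalso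
    have hs : (η c0).ord.cof < η c0 := by
      by_contra hcon
      exact hreg ⟨hc0, not_lt.mp hcon⟩
    have h0 : ℵ₀ < η c0 := by
      refine lt_of_le_of_ne hc0 ?_
      intro h'
      exact hreg (by rw [← h']; exact Cardinal.isRegular_aleph0)
    have h1 : (2 : Cardinal.{u}) ^< (η c0) ≤ η c0 := by
      rw [Cardinal.powerlt_le]
      intro x hx
      exact (H330.gch_strong gch h0 (H330.sing_lim hc0 hs) x hx).le
    exact absurd (hle.trans h1) (not_le.mpr hlt)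
  · exact H330.main_ge4 hκ hn4 (fun ν => ⟨(hη ν).1.le, (hη ν).2⟩) hf

/-- **Converse of the stepping-up lemma under `GCH`**, order types and ordinal successors. -/
theorem type_form
    (GCH : ∀ c : Cardinal.{u}, ℵ₀ ≤ c → (2 : Cardinal.{u}) ^ c = Order.succ c)
    (κ : Cardinal.{u}) (hκ : ℵ₀ ≤ κ) (n : ℕ) (hn : 2 ≤ n)
    (γ : Cardinal.{u}) (hγ : 2 ≤ γ) (hγκ : γ < κ)
    (η : γ.ord.ToType → Cardinal.{u}) (hη : ∀ k, (n : Cardinal.{u}) < η k ∧ η k ≤ κ)
    (h : ¬ ArrowType κ γ (fun k => (η k).ord) n) :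
    ¬ ArrowType (2 ^ κ) γ (fun k => Order.succ (η k).ord) (n + 1) := by
  classical
  unfold ArrowType at h
  push Not at h
  obtain ⟨f, hf⟩ := h
  intro H0
  -- embeddings of proper initial segments of `2 ^ κ` into `κ`
  have hp : ∀ a : ((2 : Cardinal.{u}) ^ κ).ord.ToType,
      Nonempty ({x : ((2 : Cardinal.{u}) ^ κ).ord.ToType // x < a} ↪ κ.ord.ToType) := by
    intro a
    have h1 : #{x : ((2 : Cardinal.{u}) ^ κ).ord.ToType // x < a} < 2 ^ κ :=
      Cardinal.mk_Iio_lt a (by simp) |>.trans_eq (by simp)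
    have h2 : #{x : ((2 : Cardinal.{u}) ^ κ).ord.ToType // x < a} < Order.succ κ :=
      lt_of_lt_of_eq h1 (GCH κ hκ)
    have h3 := Order.lt_succ_iff.mp h2
    have h4 : #{x : ((2 : Cardinal.{u}) ^ κ).ord.ToType // x < a} ≤ #κ.ord.ToType := by
      rwa [Cardinal.mk_ord_toType]
    exact h4
  let p := fun a => (hp a).some
  obtain ⟨k, H, hH, hhom⟩ := H0 (fun s =>
    f ⟨H330.OrdConv.lower p s.1 (by
      apply Finset.card_pos.mp
      rw [s.2]; exact Nat.succ_pos n), H330.OrdConv.card_lower p s.1 _ n s.2⟩)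
  obtain ⟨X, hX, hXhom⟩ := H330.OrdConv.core p n f k (η k) H hH (by
    intro s hs hc hsH
    exact hhom ⟨s, hc⟩ hsH)
  obtain ⟨s, hs1, hs2⟩ := hf k X hX
  exact hs2 (hXhom s hs1)

/-- **Converse of the stepping-up lemma under `GCH`.** Let `κ` be infinite, `2 ≤ n`,
`2 ≤ γ < κ` and `n < η k ≤ κ` for all `k < γ`.
(1) If `κ ↛ (η k; k < γ)^n` then `2^κ ↛ (η k ∔ 1; k < γ)^{n+1}` (order types, `∔ 1` the ordinal
successor).
(2) If `κ ↛ (η k; k < γ)^n` then `2^κ ↛ (η k + 1; k < γ)^{n+1}` with cardinal sums and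
homogeneous sets measured by cardinality, unless `n = 2` and the sequence is `Exceptional`. -/
theorem result
    (GCH : ∀ c : Cardinal.{u}, ℵ₀ ≤ c → (2 : Cardinal.{u}) ^ c = Order.succ c)
    (κ : Cardinal.{u}) (hκ : ℵ₀ ≤ κ) (n : ℕ) (hn : 2 ≤ n)
    (γ : Cardinal.{u}) (hγ : 2 ≤ γ) (hγκ : γ < κ)
    (η : γ.ord.ToType → Cardinal.{u}) (hη : ∀ k, (n : Cardinal.{u}) < η k ∧ η k ≤ κ) :
    (¬ ArrowType κ γ (fun k => (η k).ord) n →
      ¬ ArrowType (2 ^ κ) γ (fun k => Order.succ (η k).ord) (n + 1)) ∧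
    ((n = 2 → ¬ Exceptional κ γ η) → ¬ ArrowCard κ γ η n →
      ¬ ArrowCard (2 ^ κ) γ (fun k => η k + 1) (n + 1)) :=
  ⟨fun h => type_form GCH κ hκ n hn γ hγ hγκ η hη h,
    fun hex h => card_form GCH κ γ hκ n hn hγ hγκ η hη hex h⟩

end Pool.Agent.Results.MP_2e9b9b_lc.BothConverses
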