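import Mathlib
import Pool.Agent.H330.GchTwo

/-!
# Converse of the stepping-up lemma under `GCH`, with cardinal sums
-/

open Cardinal Set

universe u

namespace Pool.Agent.Results.MP_2e9b9b_lc.CardinalConverse

/-- The ordinary partition relation `κ → (η k; k < γ)^m` for cardinals `η k`: for every colouring
`c` of the `m`-element subsets of `κ` with the colours `k < γ` there are a colour `k` and a set
`H ⊆ κ` of cardinality `η k` all of whose `m`-element subsets have colour `k`. -/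
def Arrow (κ γ : Cardinal.{u}) (η : γ.ord.ToType → Cardinal.{u}) (m : ℕ) : Prop :=
  ∀ c : {s : Finset κ.ord.ToType // s.card = m} → γ.ord.ToType,
    ∃ (k : γ.ord.ToType) (H : Set κ.ord.ToType), #H = η k ∧
      ∀ s : {s : Finset κ.ord.ToType // s.card = m}, (∀ x ∈ s.1, x ∈ H) → c s = k

/-- The sequences left open for `n = 2`: `κ` is singular, its cofinality is the successor of a
singular cardinal `ρ`, exactly one entry equals `κ`, all other entries are below the cofinality of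
`ρ` and finite or singular, and `cf ρ ≤ γ < ρ`. -/
def Exceptional (κ γ : Cardinal.{u}) (η : γ.ord.ToType → Cardinal.{u}) : Prop :=
  ∃ (ρ : Cardinal.{u}) (k₀ : γ.ord.ToType), ℵ₀ ≤ ρ ∧ ρ.ord.cof < ρ ∧
    κ.ord.cof = Order.succ ρ ∧ κ.ord.cof < κ ∧ η k₀ = κ ∧
    (∀ k, k ≠ k₀ → η k < ρ.ord.cof ∧ ¬ (η k).IsRegular) ∧ ρ.ord.cof ≤ γ ∧ γ < ρ

/-- from a failing arrow to a colouring -/
lemma exists_NA {κ γ : Cardinal.{u}} (hγ : γ ≠ 0) {η : γ.ord.ToType → Cardinal.{u}} {r : ℕ}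
    (h : ¬ Arrow κ γ η r) : ∃ f : Finset κ.ord.ToType → γ.ord.ToType, H330.NA η r f := by
  classical
  unfold Arrow at h
  push Not at h
  obtain ⟨f, hf⟩ := h
  have hne : Nonempty γ.ord.ToType := by
    rw [← Cardinal.mk_ne_zero_iff, Cardinal.mk_ord_toType]; exact hγ
  refine ⟨fun s => if hs : s.card = r then f ⟨s, hs⟩ else Classical.choice hne, ?_⟩
  intro ν Y hY
  obtain ⟨s, hs1, hs2⟩ := hf ν Y hY
  refine ⟨s.1, s.2, fun x hx => hs1 x (Finset.mem_coe.mp hx), ?_⟩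
  simpa only [dif_pos s.2] using hs2

/-- from a colouring to a failing arrow -/
lemma not_arrow {κ γ : Cardinal.{u}} {η : γ.ord.ToType → Cardinal.{u}} {r : ℕ}
    (h : ∃ f : Finset κ.ord.ToType → γ.ord.ToType, H330.NA η r f) : ¬ Arrow κ γ η r := by
  rintro hA
  obtain ⟨f, hf⟩ := h
  obtain ⟨ν, H, hH, hhom⟩ := hA (fun s => f s.1)
  obtain ⟨s, h1, h2, h3⟩ := hf ν H hH
  exact h3 (hhom ⟨s, h1⟩ (fun x hx => h2 (Finset.mem_coe.mpr hx)))

/-- **Converse of the stepping-up lemma under `GCH`, cardinal form.** Let `κ` be infinite,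
`2 ≤ n`, `2 ≤ γ < κ` and `n < η k ≤ κ` for all `k < γ`. If `κ ↛ (η k; k < γ)^n` then
`2^κ ↛ (η k + 1; k < γ)^{n+1}` with cardinal sums `η k + 1` and homogeneous sets measured by
cardinality, unless `n = 2` and the sequence is `Exceptional`. -/
theorem result (gch : ∀ c : Cardinal.{u}, ℵ₀ ≤ c → 2 ^ c = Order.succ c)
    (κ γ : Cardinal.{u}) (hκ : ℵ₀ ≤ κ) (n : ℕ) (hn : 2 ≤ n) (hγ2 : 2 ≤ γ) (hγ : γ < κ)
    (η : γ.ord.ToType → Cardinal.{u}) (hη : ∀ k, (n : Cardinal.{u}) < η k ∧ η k ≤ κ)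
    (hex : n = 2 → ¬ Exceptional κ γ η) (h : ¬ Arrow κ γ η n) :
    ¬ Arrow (2 ^ κ) γ (fun k => η k + 1) (n + 1) := by
  have hγ0 : γ ≠ 0 := by
    rintro rfl
    exact absurd hγ2 (by simp)
  obtain ⟨f, hf⟩ := exists_NA hγ0 h
  apply not_arrow
  rcases (show n = 2 ∨ n = 3 ∨ 4 ≤ n by omega) with hn2 | hn3 | hn4
  · subst hn2
    refine H330.gch_two gch hκ (by rw [Cardinal.mk_ord_toType]; exact hγ) (fun ν => ⟨?_, (hη ν).2⟩)
      hf ?_
    · have h1 := Order.succ_le_of_lt (hη ν).1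
      have h2 : Order.succ ((2 : ℕ) : Cardinal.{u}) = ((3 : ℕ) : Cardinal.{u}) :=
        (Cardinal.nat_succ 2).symm
      rw [h2] at h1
      exact_mod_cast h1
    · rintro ⟨ρ, k₀, g1, g2, g3, g4, g5, g6, g7, g8⟩
      rw [Cardinal.mk_ord_toType] at g7 g8
      exact hex rfl ⟨ρ, k₀, g1, g2, g3, g4, g5, g6, g7, g8⟩
  · subst hn3
    refine H330.main_three hκ (fun ν => ⟨by exact_mod_cast (hη ν).1.le, (hη ν).2⟩) hf ?_
    intro c0 _ _ hc0 hreg hlt hle _
    exfalso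
    have hs : (η c0).ord.cof < η c0 := by
      by_contra hcon
      exact hreg ⟨hc0, not_lt.mp hcon⟩
    have h0 : ℵ₀ < η c0 := by
      refine lt_of_le_of_ne hc0 ?_
      intro h'
      exact hreg (by rw [← h']; exact Cardinal.isRegular_aleph0)
    have h1 : (2 : Cardinal.{u}) ^< (η c0) ≤ η c0 := by
      rw [Cardinal.powerlt_le]
      intro x hx
      exact (H330.gch_strong gch h0 (H330.sing_lim hc0 hs) x hx).le
    exact absurd (hle.trans h1) (not_le.mpr hlt)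
  · exact H330.main_ge4 hκ hn4 (fun ν => ⟨(hη ν).1.le, (hη ν).2⟩) hf

end Pool.Agent.Results.MP_2e9b9b_lc.CardinalConverse
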